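import Pool.Agent.R343.SunDet3

set_option autoImplicit false

namespace Pool.Agent.Results.MP_63ede0_nt.AllPrimeSets

open Finset Matrix

/-- the determinant `D_p^(m)`; the Jacobi symbol of Mathlib is the Legendre symbol when `p` is an
odd prime. The indices `j, k` of `Fin ((p - 1) / 2)` stand for `j + 1, k + 1`. -/
def D (m p : ℕ) : ℤ :=
  (Matrix.of fun j k : Fin ((p - 1) / 2) => ((((j : ℕ) : ℤ) + 1) ^ 2 - (((k : ℕ) : ℤ) + 1) ^ 2) ^ m *
    jacobiSym ((((j : ℕ) : ℤ) + 1) ^ 2 - (((k : ℕ) : ℤ) + 1) ^ 2) p).det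

/-- the set `E(m)` -/
def E (m : ℕ) : Set ℕ := {p | p.Prime ∧ p % 4 = 1 ∧ (p : ℤ) ∣ D m p}

/-- `P(m, a)`, the product of the first `a` terms of `2 m - 1, 2 m - 3, 2 m - 5, …` -/
def P (m a : ℕ) : ℕ := ∏ i ∈ range a, (2 * m - 1 - 2 * i)

/-- `K(m, a)` -/
def K (m a : ℕ) : ℕ := P m a * (2 ^ (m - a) * (m - a).factorial) +
  P m (m - a) * (2 ^ a * a.factorial)

open Pool.Agent.R343.SunDet

theorem D_eq (m p : ℕ) [hp : Fact p.Prime] : D m p = (mat p m ((p - 1) / 2)).det := by
  unfold D mat
  congr 1
  ext j l
  simp only [Matrix.of_apply]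
  rw [jacobiSym.legendreSym.to_jacobiSym]

theorem criterion (m p : ℕ) (hm : Odd m) (hp : p.Prime) (hp1 : p % 4 = 1) (hpm : 2 * m + 1 < p) :
    p ∈ E m ↔ ∃ a ≤ (m - 1) / 2, p ∣ K m a := by
  have : Fact p.Prime := ⟨hp⟩
  obtain ⟨t, rfl⟩ := hm
  obtain ⟨q, hq⟩ : ∃ q, p = 4 * q + 1 := ⟨p / 4, by omega⟩
  have h1 : (2 * t + 1 - 1) / 2 = t := by omega
  rw [h1]
  have h2 := dvd_iff p ((p - 1) / 2) q t hq (by omega) (by omega)
  constructor
  · rintro ⟨_, _, h⟩
    rw [D_eq] at h
    exact h2.1 h
  · intro h
    refine ⟨hp, hp1, ?_⟩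
    rw [D_eq]
    exact h2.2 h

theorem finite (m : ℕ) (hm : Odd m) : (E m).Finite := by
  apply Set.Finite.subset (Finset.finite_toSet (range (2 * m + 2) ∪
    (range (m + 1)).biUnion fun a => (K m a).primeFactors))
  intro p hp
  rw [mem_coe, mem_union, mem_range, mem_biUnion]
  by_cases h : p < 2 * m + 2
  · exact Or.inl h
  · right
    obtain ⟨a, ha, hd⟩ := (criterion m p hm hp.1 hp.2.1 (by omega)).1 hp
    refine ⟨a, mem_range.2 (by omega), ?_⟩
    rw [Nat.mem_primeFactors]
    exact ⟨hp.1, hd, (KK_pos m a (by omega)).ne'⟩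

/-- the criterion for the small primes -/
theorem small (m p k : ℕ) (hp : p.Prime) (hpk : p = 2 * (k + 1) + 1) (hp1 : p % 4 = 1) :
    p ∈ E m ↔ (p : ℤ) ∣ ∏ a : Fin (k + 1), cf k (k + 1 + m) a := by
  have : Fact p.Prime := ⟨hp⟩
  have h1 : p ∈ E m ↔ (p : ℤ) ∣ D m p := ⟨fun h => h.2.2, fun h => ⟨hp, hp1, h⟩⟩
  have h2 : (p - 1) / 2 = k + 1 := by omega
  rw [h1, D_eq, h2, ← ZMod.intCast_zmod_eq_zero_iff_dvd, det_mod p k m hpk,
    ← ZMod.intCast_zmod_eq_zero_iff_dvd, Int.cast_prod, mul_eq_zero, mul_eq_zero]
  constructor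
  · rintro ((h | h) | h)
    · exact absurd h (pow_ne_zero _ (by norm_num))
    · exfalso
      have h3 := pow_eq_zero_iff (n := k + 1) (by omega) |>.1 h
      rw [ZMod.natCast_eq_zero_iff] at h3
      have := Nat.le_of_dvd (by omega) h3
      omega
    · exact h
  · intro h
    exact Or.inr h

theorem small_dec (m p k : ℕ) (hp : p.Prime) (hpk : p = 2 * (k + 1) + 1) (hp1 : p % 4 = 1)
    (b : Bool) (hb : decide ((∏ a : Fin (k + 1), cf k (k + 1 + m) a) % (p : ℤ) = 0) = b) :
    p ∈ E m ↔ b = true := by
  rw [small m p k hp hpk hp1, ← hb, decide_eq_true_eq, Int.dvd_iff_emod_eq_zero]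

theorem fac (p n : ℕ) (hp : p.Prime) (L : List ℕ) (hL : ∀ q ∈ L, Nat.Prime q) (hn : L.prod = n)
    (hd : p ∣ n) : p ∈ L := by
  rw [← hn] at hd
  exact mem_list_primes_of_dvd_prod hp.prime (fun q hq => (hL q hq).prime) hd

theorem small_5_5 : 5 ∉ E 5 := by
  rw [small_dec 5 5 1 (by norm_num) (by norm_num) (by norm_num) false (by decide +kernel)]
  decide

theorem E5 : E 5 = {29} := by
  ext p
  simp only [Set.mem_insert_iff, Set.mem_singleton_iff]
  constructor
  · intro hp
    have hp1 := hp.2.1
    have hpp := hp.1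
    by_cases h : 2 * 5 + 1 < p
    · obtain ⟨a, ha, hd⟩ := (criterion 5 p (by decide) hpp hp1 h).1 hp
      norm_num at ha
      interval_cases a
      · have h1 := fac p _ hpp [3, 5, 11, 29] (by norm_num) (by decide +kernel) hd
        simp only [List.mem_cons, List.not_mem_nil, or_false] at h1
        omega
      · have h1 := fac p _ hpp [2, 3, 3, 3, 3, 3, 11] (by norm_num) (by decide +kernel) hd
        simp only [List.mem_cons, List.not_mem_nil, or_false] at h1
        omega
      · have h1 := fac p _ hpp [2, 2, 2, 3, 3, 7, 11] (by norm_num) (by decide +kernel) hd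
        simp only [List.mem_cons, List.not_mem_nil, or_false] at h1
        omega
    · have h2 := hpp.two_le
      have h3 : p = 5 ∨ p = 9 := by omega
      rcases h3 with rfl | rfl
      · exact absurd hp small_5_5
      · exact absurd hpp (by norm_num)
  · rintro (rfl)
    · rw [criterion 5 29 (by decide) (by norm_num) (by norm_num) (by norm_num)]
      exact ⟨0, by norm_num, by decide +kernel⟩

theorem small_7_5 : 5 ∉ E 7 := by
  rw [small_dec 7 5 1 (by norm_num) (by norm_num) (by norm_num) false (by decide +kernel)]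
  decide

theorem small_7_13 : 13 ∈ E 7 := by
  rw [small_dec 7 13 5 (by norm_num) (by norm_num) (by norm_num) true (by decide +kernel)]

theorem E7 : E 7 = {13, 53, 2477} := by
  ext p
  simp only [Set.mem_insert_iff, Set.mem_singleton_iff]
  constructor
  · intro hp
    have hp1 := hp.2.1
    have hpp := hp.1
    by_cases h : 2 * 7 + 1 < p
    · obtain ⟨a, ha, hd⟩ := (criterion 7 p (by decide) hpp hp1 h).1 hp
      norm_num at ha
      interval_cases a
      · have h1 := fac p _ hpp [3, 3, 5, 7, 2477] (by norm_num) (by decide +kernel) hd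
        simp only [List.mem_cons, List.not_mem_nil, or_false] at h1
        omega
      · have h1 := fac p _ hpp [2, 3, 3, 5, 13, 743] (by norm_num) (by decide +kernel) hd
        simp only [List.mem_cons, List.not_mem_nil, or_false] at h1
        omega
      · have h1 := fac p _ hpp [2, 2, 2, 3, 5, 11, 13, 53] (by norm_num) (by decide +kernel) hd
        simp only [List.mem_cons, List.not_mem_nil, or_false] at h1
        omega
      · have h1 := fac p _ hpp [2, 2, 2, 2, 3, 3, 3, 3, 5, 11, 13] (by norm_num) (by decide +kernel) hd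
        simp only [List.mem_cons, List.not_mem_nil, or_false] at h1
        omega
    · have h2 := hpp.two_le
      have h3 : p = 5 ∨ p = 9 ∨ p = 13 := by omega
      rcases h3 with rfl | rfl | rfl
      · exact absurd hp small_7_5
      · exact absurd hpp (by norm_num)
      · norm_num
  · rintro (rfl | rfl | rfl)
    · exact small_7_13
    · rw [criterion 7 53 (by decide) (by norm_num) (by norm_num) (by norm_num)]
      exact ⟨2, by norm_num, by decide +kernel⟩
    · rw [criterion 7 2477 (by decide) (by norm_num) (by norm_num) (by norm_num)]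
      exact ⟨0, by norm_num, by decide +kernel⟩

theorem small_9_5 : 5 ∉ E 9 := by
  rw [small_dec 9 5 1 (by norm_num) (by norm_num) (by norm_num) false (by decide +kernel)]
  decide

theorem small_9_13 : 13 ∈ E 9 := by
  rw [small_dec 9 13 5 (by norm_num) (by norm_num) (by norm_num) true (by decide +kernel)]

theorem small_9_17 : 17 ∈ E 9 := by
  rw [small_dec 9 17 7 (by norm_num) (by norm_num) (by norm_num) true (by decide +kernel)]

theorem E9 : E 9 = {13, 17, 29, 1201} := by
  ext p
  simp only [Set.mem_insert_iff, Set.mem_singleton_iff]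
  constructor
  · intro hp
    have hp1 := hp.2.1
    have hpp := hp.1
    by_cases h : 2 * 9 + 1 < p
    · obtain ⟨a, ha, hd⟩ := (criterion 9 p (by decide) hpp hp1 h).1 hp
      norm_num at ha
      interval_cases a
      · have h1 := fac p _ hpp [3, 3, 3, 3, 3, 5, 7, 19, 29, 47] (by norm_num) (by decide +kernel) hd
        simp only [List.mem_cons, List.not_mem_nil, or_false] at h1
        omega
      · have h1 := fac p _ hpp [2, 3, 3, 5, 7, 17, 19, 1201] (by norm_num) (by decide +kernel) hd
        simp only [List.mem_cons, List.not_mem_nil, or_false] at h1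
        omega
      · have h1 := fac p _ hpp [2, 2, 2, 3, 3, 3, 3, 5, 5, 7, 7, 17, 19] (by norm_num) (by decide +kernel) hd
        simp only [List.mem_cons, List.not_mem_nil, or_false] at h1
        omega
      · have h1 := fac p _ hpp [2, 2, 2, 2, 3, 3, 3, 5, 13, 17, 19, 29] (by norm_num) (by decide +kernel) hd
        simp only [List.mem_cons, List.not_mem_nil, or_false] at h1
        omega
      · have h1 := fac p _ hpp [2, 2, 2, 2, 2, 2, 2, 3, 3, 5, 11, 13, 17, 19] (by norm_num) (by decide +kernel) hd
        simp only [List.mem_cons, List.not_mem_nil, or_false] at h1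
        omega
    · have h2 := hpp.two_le
      have h3 : p = 5 ∨ p = 9 ∨ p = 13 ∨ p = 17 := by omega
      rcases h3 with rfl | rfl | rfl | rfl
      · exact absurd hp small_9_5
      · exact absurd hpp (by norm_num)
      · norm_num
      · norm_num
  · rintro (rfl | rfl | rfl | rfl)
    · exact small_9_13
    · exact small_9_17
    · rw [criterion 9 29 (by decide) (by norm_num) (by norm_num) (by norm_num)]
      exact ⟨0, by norm_num, by decide +kernel⟩
    · rw [criterion 9 1201 (by decide) (by norm_num) (by norm_num) (by norm_num)]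
      exact ⟨1, by norm_num, by decide +kernel⟩

theorem small_11_5 : 5 ∉ E 11 := by
  rw [small_dec 11 5 1 (by norm_num) (by norm_num) (by norm_num) false (by decide +kernel)]
  decide

theorem small_11_13 : 13 ∉ E 11 := by
  rw [small_dec 11 13 5 (by norm_num) (by norm_num) (by norm_num) false (by decide +kernel)]
  decide

theorem small_11_17 : 17 ∈ E 11 := by
  rw [small_dec 11 17 7 (by norm_num) (by norm_num) (by norm_num) true (by decide +kernel)]

theorem E11 : E 11 = {17, 29, 1597} := by
  ext p
  simp only [Set.mem_insert_iff, Set.mem_singleton_iff]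
  constructor
  · intro hp
    have hp1 := hp.2.1
    have hpp := hp.1
    by_cases h : 2 * 11 + 1 < p
    · obtain ⟨a, ha, hd⟩ := (criterion 11 p (by decide) hpp hp1 h).1 hp
      norm_num at ha
      interval_cases a
      · have h1 := fac p _ hpp [3, 3, 3, 3, 5, 5, 7, 11, 23, 31, 859] (by norm_num) (by decide +kernel) hd
        simp only [List.mem_cons, List.not_mem_nil, or_false] at h1
        omega
      · have h1 := fac p _ hpp [2, 3, 3, 3, 3, 3, 3, 5, 5, 7, 7, 7, 23, 367] (by norm_num) (by decide +kernel) hd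
        simp only [List.mem_cons, List.not_mem_nil, or_false] at h1
        omega
      · have h1 := fac p _ hpp [2, 2, 2, 3, 3, 3, 3, 5, 7, 7, 19, 23, 1597] (by norm_num) (by decide +kernel) hd
        simp only [List.mem_cons, List.not_mem_nil, or_false] at h1
        omega
      · have h1 := fac p _ hpp [2, 2, 2, 2, 3, 3, 3, 5, 5, 7, 7, 17, 19, 23, 29] (by norm_num) (by decide +kernel) hd
        simp only [List.mem_cons, List.not_mem_nil, or_false] at h1
        omega
      · have h1 := fac p _ hpp [2, 2, 2, 2, 2, 2, 2, 3, 3, 3, 3, 5, 7, 17, 19, 23, 43] (by norm_num) (by decide +kernel) hd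
        simp only [List.mem_cons, List.not_mem_nil, or_false] at h1
        omega
      · have h1 := fac p _ hpp [2, 2, 2, 2, 2, 2, 2, 2, 3, 3, 3, 5, 5, 7, 13, 17, 19, 23] (by norm_num) (by decide +kernel) hd
        simp only [List.mem_cons, List.not_mem_nil, or_false] at h1
        omega
    · have h2 := hpp.two_le
      have h3 : p = 5 ∨ p = 9 ∨ p = 13 ∨ p = 17 ∨ p = 21 := by omega
      rcases h3 with rfl | rfl | rfl | rfl | rfl
      · exact absurd hp small_11_5
      · exact absurd hpp (by norm_num)
      · exact absurd hp small_11_13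
      · norm_num
      · exact absurd hpp (by norm_num)
  · rintro (rfl | rfl | rfl)
    · exact small_11_17
    · rw [criterion 11 29 (by decide) (by norm_num) (by norm_num) (by norm_num)]
      exact ⟨3, by norm_num, by decide +kernel⟩
    · rw [criterion 11 1597 (by decide) (by norm_num) (by norm_num) (by norm_num)]
      exact ⟨2, by norm_num, by decide +kernel⟩

/-- **Q1 and Q2.** Every `E(m)`, `m` odd, is finite; for the primes `p > 2 m + 1` the condition
`p ∈ E(m)` is a divisibility of one of the positive integers `K(m, a)`, `a ≤ (m - 1) / 2`; and the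
four sets of Q2 are given. -/
theorem result :
    (∀ m : ℕ, Odd m → (E m).Finite) ∧
    (∀ m p : ℕ, Odd m → p.Prime → p % 4 = 1 → 2 * m + 1 < p →
      (p ∈ E m ↔ ∃ a ≤ (m - 1) / 2, p ∣ K m a)) ∧
    (∀ m a : ℕ, a ≤ m → 0 < K m a) ∧
    E 5 = {29} ∧ E 7 = {13, 53, 2477} ∧ E 9 = {13, 17, 29, 1201} ∧ E 11 = {17, 29, 1597} :=
  ⟨finite, fun m p hm hp hp1 hpm => criterion m p hm hp hp1 hpm, fun m a ha => KK_pos m a ha,
    E5, E7, E9, E11⟩

end Pool.Agent.Results.MP_63ede0_nt.AllPrimeSets
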